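import Mathlib

namespace Pool.Agent.Results.MP_020c1a_co.NotSylow

open Finset

/-- `F` is a `p`-singular family: `g h⁻¹` has order divisible by `p` for distinct `g, h ∈ F` -/
def Singular {G : Type} [Group G] (p : ℕ) (F : Finset G) : Prop :=
  ∀ g ∈ F, ∀ h ∈ F, g ≠ h → p ∣ orderOf (g * h⁻¹)

/-- `F` is a maximum `p`-singular family -/
def MaxSingular {G : Type} [Group G] (p : ℕ) (F : Finset G) : Prop :=
  Singular p F ∧ ∀ F' : Finset G, Singular p F' → F'.card ≤ F.card

/-- `F` is a double-translate `g P h` of a Sylow `p`-subgroup `P` -/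
def SylowTranslate {G : Type} [Group G] (p : ℕ) (F : Finset G) : Prop :=
  ∃ (P : Sylow p G) (g h : G), (F : Set G) = (fun s => g * s * h) '' (P : Set G)

abbrev G3 : Type := GL (Fin 2) (ZMod 3)

def u : G3 := ⟨!![1, 1; 0, 1], !![1, 2; 0, 1], by decide, by decide⟩
def w : G3 := ⟨!![2, 1; 0, 2], !![2, 2; 0, 2], by decide, by decide⟩

theorem dvd3 (x : G3) (h : x ^ 2 ≠ 1) (h6 : x ^ 6 = 1) : 3 ∣ orderOf x := by
  have h1 := orderOf_dvd_of_pow_eq_one h6
  have h2 : ¬ orderOf x ∣ 2 := fun h' => h (orderOf_dvd_iff_pow_eq_one.1 h')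
  have h3 := Nat.le_of_dvd (by norm_num) h1
  interval_cases orderOf x <;> simp_all

theorem card_sylow (P : Sylow 3 G3) : Nat.card P = 3 := by
  have : Fact (Nat.Prime 3) := ⟨by norm_num⟩
  rw [Sylow.card_eq_multiplicity, Matrix.card_GL_field]
  simp only [Fin.prod_univ_two, ZMod.card]
  norm_num
  rw [show 48 = 3 ^ 1 * 16 by norm_num, Nat.factorization_mul (by norm_num) (by norm_num)]
  simp [Nat.prime_three.factorization_self, Nat.factorization_eq_zero_of_not_dvd]

theorem result : ¬ ∀ F : Finset (GL (Fin 2) (ZMod 3)), MaxSingular 3 F ↔ SylowTranslate 3 F := by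
  classical
  intro H
  obtain ⟨F0, h0, h1⟩ := Set.exists_max_image {F : Finset G3 | Singular 3 F}
    card (Set.toFinite _) ⟨∅, fun g hg => absurd hg (notMem_empty _)⟩
  obtain ⟨P, g, h, e⟩ := (H F0).1 ⟨h0, h1⟩
  have c0 : F0.card = 3 := by
    rw [← Set.ncard_coe_finset, e, Set.ncard_image_of_injective _
      (fun a b hab => by simpa using hab)]
    exact card_sylow P
  have s1 : Singular 3 ({1, u, w} : Finset G3) := by
    intro a ha b hb hab
    simp only [mem_insert, mem_singleton] at ha hb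
    rcases ha with rfl | rfl | rfl <;> rcases hb with rfl | rfl | rfl <;>
      first | exact absurd rfl hab | exact dvd3 _ (by decide) (by decide)
  have c1 : ({1, u, w} : Finset G3).card = 3 :=
    card_eq_three.2 ⟨_, _, _, by decide, by decide, by decide, rfl⟩
  obtain ⟨Q, a, b, e2⟩ := (H {1, u, w}).1
    ⟨s1, fun F' hF' => (h1 F' hF').trans (c0.trans c1.symm).le⟩
  obtain ⟨x, hx, ex⟩ : w ∈ (fun s => a * s * b) '' (Q : Set G3) := by rw [← e2]; simp
  obtain ⟨y, hy, ey⟩ : (1 : G3) ∈ (fun s => a * s * b) '' (Q : Set G3) := by rw [← e2]; simp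
  have h3 : (x * y⁻¹) ^ 3 = 1 := by
    have := pow_card_eq_one' (G := Q) (x := ⟨x * y⁻¹, Q.mul_mem hx (Q.inv_mem hy)⟩)
    rw [card_sylow] at this
    exact congrArg Subtype.val this
  have h4 : w = a * (x * y⁻¹) * a⁻¹ := by
    simp only at ex ey
    rw [← ex, ← mul_one (a * x * b), ← inv_one, ← ey]; group
  have h5 : w ^ 3 = 1 := by rw [h4, conj_pow, h3]; group
  exact absurd h5 (by decide)

end Pool.Agent.Results.MP_020c1a_co.NotSylow
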